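import Mathlib

/-!
# State sums for connected spanning subgraphs: the computable part
-/

namespace Pool.Agent.Helper40NC

/-- an edge of the list: two vertices and an integer weight -/
abbrev Ed := Fin 8 × Fin 8 × ℕ

/-- replace the label `b` by `a` -/
def mg (L : List ℕ) (a b : ℕ) : List ℕ := L.map (fun x => if x = b then a else x)

/-- all labels are equal -/
def cst (L : List ℕ) : Bool := L.all (fun x => x == L.headD 0)

/-- sum over the sets of edges of the list which connect everything, the labels `L` giving the
connections which are present from the beginning; the edge number `i` has the weight `n i * B` -/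
def W (B : ℕ) : List Ed → List ℕ → ℕ
  | [], L => if cst L then 1 else 0
  | (u, v, n) :: es, L =>
    if L.getD u.val 0 = L.getD v.val 0 then (1 + n * B) * W B es L
    else W B es L + n * B * W B es (mg L (L.getD u.val 0) (L.getD v.val 0))

/-- the 15 edges different from `{6,7}` and `{0,1}` -/
def es8 : List Ed :=
  [(0, 3, 200), (1, 3, 200), (2, 3, 200), (6, 3, 20), (0, 4, 200), (1, 4, 200), (2, 4, 200),
    (6, 4, 20), (0, 5, 200), (1, 5, 200), (2, 5, 200), (6, 5, 20), (7, 0, 1), (7, 1, 1), (7, 2, 20)]

end Pool.Agent.Helper40NC
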