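import Mathlib
import Pool.Agent.Helper40_NC.Comp

/-!
# State sums for connected spanning subgraphs: dynamic programming
-/

namespace Pool.Agent.Helper40NC

/-- a list of states (labels) with coefficients -/
abbrev St := List (List ℕ × ℕ)

/-- add `c` times the state `L` -/
def ins (L : List ℕ) (c : ℕ) : St → St
  | [] => [(L, c)]
  | (L', c') :: D => if L' = L then (L', c' + c) :: D else (L', c') :: ins L c D

/-- the value of a combination of states -/
def val (B : ℕ) (es : List Ed) (D : St) : ℕ := (D.map (fun x => x.2 * W B es x.1)).sum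

theorem val_nil (B : ℕ) (es : List Ed) : val B es [] = 0 := rfl

theorem val_cons (B : ℕ) (es : List Ed) (x : List ℕ × ℕ) (D : St) :
    val B es (x :: D) = x.2 * W B es x.1 + val B es D := by
  unfold val; rw [List.map_cons, List.sum_cons]

theorem val_ins (B : ℕ) (es : List Ed) (L : List ℕ) (c : ℕ) (D : St) :
    val B es (ins L c D) = c * W B es L + val B es D := by
  induction D with
  | nil => unfold ins; rw [val_cons, val_nil]
  | cons x D ih =>
    obtain ⟨L', c'⟩ := x
    unfold ins
    by_cases h : L' = L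
    · rw [if_pos h, val_cons, val_cons, h]; ring
    · rw [if_neg h, val_cons, ih, val_cons]; ring

/-- process an edge -/
def stepE (B : ℕ) (u v : Fin 8) (n : ℕ) : St → St
  | [] => []
  | (L, c) :: D =>
    if L.getD u.val 0 = L.getD v.val 0 then ins L (c * (1 + n * B)) (stepE B u v n D)
    else ins L c (ins (mg L (L.getD u.val 0) (L.getD v.val 0)) (c * (n * B)) (stepE B u v n D))

theorem val_stepE (B : ℕ) (u v : Fin 8) (n : ℕ) (es : List Ed) (D : St) :
    val B es (stepE B u v n D) = val B ((u, v, n) :: es) D := by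
  induction D with
  | nil => rfl
  | cons x D ih =>
    obtain ⟨L, c⟩ := x
    unfold stepE
    rw [val_cons]
    have hW : W B ((u, v, n) :: es) L = if L.getD u.val 0 = L.getD v.val 0 then
      (1 + n * B) * W B es L else W B es L + n * B * W B es
        (mg L (L.getD u.val 0) (L.getD v.val 0)) := rfl
    change _ = c * W B ((u, v, n) :: es) L + _
    rw [hW]
    by_cases h : L.getD u.val 0 = L.getD v.val 0
    · rw [if_pos h, if_pos h, val_ins, ih]; ring
    · rw [if_neg h, if_neg h, val_ins, val_ins, ih]; ring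

/-- the vertex `y` has the label of another vertex -/
def shd (y : Fin 8) (L : List ℕ) : Bool :=
  (List.finRange 8).any (fun i => !(i == y) && (L.getD i.val 0 == L.getD y.val 0))

theorem shd_iff (y : Fin 8) (L : List ℕ) :
    shd y L = true ↔ ∃ i : Fin 8, i ≠ y ∧ L.getD i.val 0 = L.getD y.val 0 := by
  unfold shd
  rw [List.any_eq_true]
  constructor
  · rintro ⟨i, -, h⟩
    refine ⟨i, ?_⟩
    simpa using h
  · rintro ⟨i, h1, h2⟩
    refine ⟨i, List.mem_finRange i, ?_⟩
    simpa using ⟨h1, h2⟩

/-- forget the vertex `y`, to which no more edges go -/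
def stepF (y : Fin 8) : St → St
  | [] => []
  | (L, c) :: D =>
    if shd y L then ins (L.set y.val (L.getD 0 0)) c (stepF y D) else stepF y D

theorem getD_mg {L : List ℕ} {a b i : ℕ} (hi : i < L.length) :
    (mg L a b).getD i 0 = if L.getD i 0 = b then a else L.getD i 0 := by
  unfold mg
  rw [List.getD_eq_getElem _ _ (by simpa using hi), List.getD_eq_getElem _ _ hi, List.getElem_map]

theorem length_mg {L : List ℕ} {a b : ℕ} : (mg L a b).length = L.length := by
  unfold mg; rw [List.length_map]

theorem cst_iff' {L : List ℕ} (hL : L.length = 8) :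
    cst L = true ↔ ∀ i j : Fin 8, L.getD i.val 0 = L.getD j.val 0 := by
  have hl : ∀ x : Fin 8, x.val < L.length := fun x => by rw [hL]; exact x.2
  have h0 : L.headD 0 = L.getD (0 : Fin 8).val 0 := by
    cases L with
    | nil => rfl
    | cons a L => rfl
  unfold cst
  rw [List.all_eq_true, h0]
  constructor
  · intro h
    have h1 : ∀ x : Fin 8, L.getD x.val 0 = L.getD (0 : Fin 8).val 0 := by
      intro x
      have h2 := h (L.getD x.val 0) (by
        rw [List.getD_eq_getElem _ _ (hl x)]; exact List.getElem_mem _)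
      simpa using h2
    intro i j
    exact (h1 i).trans (h1 j).symm
  · intro h a ha
    obtain ⟨i, hi, rfl⟩ := List.getElem_of_mem ha
    have hi8 : i < 8 := by rw [← hL]; exact hi
    have h2 := h ⟨i, hi8⟩ 0
    change L.getD i 0 = _ at h2
    rw [List.getD_eq_getElem _ _ hi] at h2
    simpa using h2

theorem W_zero (B : ℕ) (y : Fin 8) : ∀ (es : List Ed) (L : List ℕ), L.length = 8 →
    (∀ t ∈ es, t.1 ≠ y ∧ t.2.1 ≠ y) → (∀ i : Fin 8, i ≠ y → L.getD i.val 0 ≠ L.getD y.val 0) →
    W B es L = 0 := by
  intro es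
  induction es with
  | nil =>
    intro L hL _ h
    have h1 : ¬ cst L = true := by
      rw [cst_iff' hL]
      intro h2
      obtain ⟨i, hi⟩ := exists_ne y
      exact h i hi (h2 i y)
    change (if cst L then 1 else 0) = 0
    rw [if_neg h1]
  | cons t es ih =>
    intro L hL hes h
    obtain ⟨u, v, n⟩ := t
    have hl : ∀ x : Fin 8, x.val < L.length := fun x => by rw [hL]; exact x.2
    have hes' : ∀ t ∈ es, t.1 ≠ y ∧ t.2.1 ≠ y := fun t ht => hes t (List.mem_cons_of_mem _ ht)
    obtain ⟨hu, hv⟩ := hes (u, v, n) List.mem_cons_self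
    have h1 := ih L hL hes' h
    have h2 := ih (mg L (L.getD u.val 0) (L.getD v.val 0)) (length_mg.trans hL) hes' (by
      intro i hi
      rw [getD_mg (hl i), getD_mg (hl y), if_neg (h v hv).symm]
      split_ifs
      · exact h u hu
      · exact h i hi)
    change (if L.getD u.val 0 = L.getD v.val 0 then (1 + n * B) * W B es L
      else W B es L + n * B * W B es (mg L (L.getD u.val 0) (L.getD v.val 0))) = 0
    rw [h1, h2]
    simp

theorem W_forget (B : ℕ) (y : Fin 8) : ∀ (es : List Ed) (L L' : List ℕ), L.length = 8 →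
    L'.length = 8 → (∀ t ∈ es, t.1 ≠ y ∧ t.2.1 ≠ y) →
    (∀ i : Fin 8, i ≠ y → L.getD i.val 0 = L'.getD i.val 0) →
    (∃ i : Fin 8, i ≠ y ∧ L.getD i.val 0 = L.getD y.val 0) →
    (∃ i : Fin 8, i ≠ y ∧ L'.getD i.val 0 = L'.getD y.val 0) → W B es L = W B es L' := by
  intro es
  induction es with
  | nil =>
    intro L L' hL hL' _ h ⟨a, ha, ha'⟩ ⟨b, hb, hb'⟩
    have key : cst L = true ↔ cst L' = true := by
      rw [cst_iff' hL, cst_iff' hL']
      constructor
      · intro h1
        have h2 : ∀ i : Fin 8, L'.getD i.val 0 = L'.getD b.val 0 := by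
          intro i
          by_cases hi : i = y
          · rw [hi, hb']
          · rw [← h i hi, ← h b hb]; exact h1 i b
        intro i j
        rw [h2 i, h2 j]
      · intro h1
        have h2 : ∀ i : Fin 8, L.getD i.val 0 = L.getD a.val 0 := by
          intro i
          by_cases hi : i = y
          · rw [hi, ha']
          · rw [h i hi, h a ha]; exact h1 i a
        intro i j
        rw [h2 i, h2 j]
    change (if cst L then 1 else 0) = if cst L' then 1 else 0
    by_cases hc : cst L = true
    · rw [if_pos hc, if_pos (key.1 hc)]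
    · rw [if_neg hc, if_neg (fun h2 => hc (key.2 h2))]
  | cons t es ih =>
    intro L L' hL hL' hes h ⟨a, ha, ha'⟩ ⟨b, hb, hb'⟩
    obtain ⟨u, v, n⟩ := t
    have hl : ∀ x : Fin 8, x.val < L.length := fun x => by rw [hL]; exact x.2
    have hl' : ∀ x : Fin 8, x.val < L'.length := fun x => by rw [hL']; exact x.2
    have hes' : ∀ t ∈ es, t.1 ≠ y ∧ t.2.1 ≠ y := fun t ht => hes t (List.mem_cons_of_mem _ ht)
    obtain ⟨hu, hv⟩ := hes (u, v, n) List.mem_cons_self
    have h1 := ih L L' hL hL' hes' h ⟨a, ha, ha'⟩ ⟨b, hb, hb'⟩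
    have h2 := ih (mg L (L.getD u.val 0) (L.getD v.val 0))
      (mg L' (L.getD u.val 0) (L.getD v.val 0)) (length_mg.trans hL) (length_mg.trans hL') hes'
      (by
        intro i hi
        rw [getD_mg (hl i), getD_mg (hl' i), h i hi])
      ⟨a, ha, by rw [getD_mg (hl a), getD_mg (hl y), ha']⟩
      ⟨b, hb, by rw [getD_mg (hl' b), getD_mg (hl' y), hb']⟩
    change (if L.getD u.val 0 = L.getD v.val 0 then (1 + n * B) * W B es L
      else W B es L + n * B * W B es (mg L (L.getD u.val 0) (L.getD v.val 0))) =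
      (if L'.getD u.val 0 = L'.getD v.val 0 then (1 + n * B) * W B es L'
      else W B es L' + n * B * W B es (mg L' (L'.getD u.val 0) (L'.getD v.val 0)))
    rw [← h u hu, ← h v hv, h1, h2]

theorem val_stepF (B : ℕ) (y : Fin 8) (hy : y ≠ 0) (es : List Ed)
    (hes : ∀ t ∈ es, t.1 ≠ y ∧ t.2.1 ≠ y) (D : St) (hD : ∀ x ∈ D, x.1.length = 8) :
    val B es (stepF y D) = val B es D := by
  induction D with
  | nil => rfl
  | cons x D ih =>
    obtain ⟨L, c⟩ := x
    have hL : L.length = 8 := hD _ List.mem_cons_self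
    have hD' : ∀ x ∈ D, x.1.length = 8 := fun x hx => hD x (List.mem_cons_of_mem _ hx)
    unfold stepF
    rw [val_cons]
    by_cases h : shd y L = true
    · rw [if_pos h, val_ins, ih hD']
      congr 2
      have hset : ∀ i : Fin 8, i ≠ y → (L.set y.val (L.getD 0 0)).getD i.val 0 = L.getD i.val 0 := by
        intro i hi
        have hne : y.val ≠ i.val := fun h => hi (Fin.ext h.symm)
        rw [List.getD_eq_getElem _ _ (by rw [List.length_set, hL]; exact i.2),
          List.getElem_set_ne hne]
        exact (List.getD_eq_getElem _ _ (by rw [hL]; exact i.2)).symm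
      have hset2 : (L.set y.val (L.getD 0 0)).getD y.val 0 = L.getD 0 0 := by
        rw [List.getD_eq_getElem _ _ (by rw [List.length_set, hL]; exact y.2),
          List.getElem_set_self]
      symm
      refine W_forget B y es L _ hL (by rw [List.length_set, hL]) hes
        (fun i hi => (hset i hi).symm) ((shd_iff y L).1 h) ⟨0, hy.symm, ?_⟩
      rw [hset2, hset 0 hy.symm]
      rfl
    · rw [if_neg h, ih hD']
      have h2 : W B es L = 0 := by
        refine W_zero B y es L hL hes ?_
        intro i hi h3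
        exact h ((shd_iff y L).2 ⟨i, hi, h3⟩)
      change _ = c * W B es L + _
      rw [h2, mul_zero, zero_add]

theorem len_ins {L : List ℕ} {c : ℕ} (hL : L.length = 8) {D : St} (hD : ∀ x ∈ D, x.1.length = 8) :
    ∀ x ∈ ins L c D, x.1.length = 8 := by
  induction D with
  | nil =>
    intro x hx
    unfold ins at hx
    rw [List.mem_singleton] at hx
    rw [hx]; exact hL
  | cons z D ih =>
    obtain ⟨L', c'⟩ := z
    intro x hx
    have hL' : L'.length = 8 := hD _ List.mem_cons_self
    have hD' : ∀ x ∈ D, x.1.length = 8 := fun x hx => hD x (List.mem_cons_of_mem _ hx)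
    unfold ins at hx
    split_ifs at hx
    · rcases List.mem_cons.1 hx with rfl | hx
      · exact hL'
      · exact hD' x hx
    · rcases List.mem_cons.1 hx with rfl | hx
      · exact hL'
      · exact ih hD' x hx

theorem len_stepE (B : ℕ) (u v : Fin 8) (n : ℕ) {D : St} (hD : ∀ x ∈ D, x.1.length = 8) :
    ∀ x ∈ stepE B u v n D, x.1.length = 8 := by
  induction D with
  | nil => intro x hx; cases hx
  | cons z D ih =>
    obtain ⟨L, c⟩ := z
    have hL : L.length = 8 := hD _ List.mem_cons_self
    have hD' : ∀ x ∈ D, x.1.length = 8 := fun x hx => hD x (List.mem_cons_of_mem _ hx)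
    unfold stepE
    split_ifs
    · exact len_ins hL (ih hD')
    · exact len_ins hL (len_ins (length_mg.trans hL) (ih hD'))

theorem len_stepF (y : Fin 8) {D : St} (hD : ∀ x ∈ D, x.1.length = 8) :
    ∀ x ∈ stepF y D, x.1.length = 8 := by
  induction D with
  | nil => intro x hx; cases hx
  | cons z D ih =>
    obtain ⟨L, c⟩ := z
    have hL : L.length = 8 := hD _ List.mem_cons_self
    have hD' : ∀ x ∈ D, x.1.length = 8 := fun x hx => hD x (List.mem_cons_of_mem _ hx)
    unfold stepF
    split_ifs
    · exact len_ins (by rw [List.length_set]; exact hL) (ih hD')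
    · exact ih hD'

/-- process the four edges at `y` and forget `y` -/
def blk (B : ℕ) (y : Fin 8) (D : St) : St :=
  stepF y (stepE B 6 y 20 (stepE B 2 y 200 (stepE B 1 y 200 (stepE B 0 y 200 D))))

theorem val_blk (B : ℕ) (y : Fin 8) (hy : y ≠ 0) (es : List Ed)
    (hes : ∀ t ∈ es, t.1 ≠ y ∧ t.2.1 ≠ y) (D : St) (hD : ∀ x ∈ D, x.1.length = 8) :
    val B es (blk B y D) =
      val B ((0, y, 200) :: (1, y, 200) :: (2, y, 200) :: (6, y, 20) :: es) D := by
  unfold blk
  rw [val_stepF B y hy es hes _ (len_stepE _ _ _ _ (len_stepE _ _ _ _ (len_stepE _ _ _ _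
    (len_stepE _ _ _ _ hD)))), val_stepE, val_stepE, val_stepE, val_stepE]

theorem len_blk (B : ℕ) (y : Fin 8) {D : St} (hD : ∀ x ∈ D, x.1.length = 8) :
    ∀ x ∈ blk B y D, x.1.length = 8 :=
  len_stepF y (len_stepE _ _ _ _ (len_stepE _ _ _ _ (len_stepE _ _ _ _ (len_stepE _ _ _ _ hD))))

/-- the dynamic programme for the list `es8` -/
def run8 (B : ℕ) (L : List ℕ) : ℕ :=
  val B [] (stepE B 7 2 20 (stepE B 7 1 1 (stepE B 7 0 1 (blk B 5 (blk B 4 (blk B 3 [(L, 1)]))))))

theorem run8_eq (B : ℕ) (L : List ℕ) (hL : L.length = 8) : run8 B L = W B es8 L := by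
  have h0 : ∀ x ∈ ([(L, 1)] : St), x.1.length = 8 := by
    intro x hx
    rw [List.mem_singleton] at hx
    rw [hx]; exact hL
  unfold run8
  rw [val_stepE, val_stepE, val_stepE, val_blk B 5 (by decide) _ (by decide) _
    (len_blk _ _ (len_blk _ _ h0)), val_blk B 4 (by decide) _ (by decide) _ (len_blk _ _ h0),
    val_blk B 3 (by decide) _ (by decide) _ h0, val_cons, val_nil, one_mul, add_zero]
  rfl

end Pool.Agent.Helper40NC
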