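import Mathlib
import Pool.Agent.Helper40_NC.DP
import Pool.Agent.Helper43_NC.Sub

/-!
# State sums for connected spanning subgraphs: the weighted counterexample
-/

namespace Pool.Agent.Helper40NC

open Finset Polynomial Pool.Agent.Helper43NC

/-- polynomial version of `W` -/
noncomputable def WP : List Ed → List ℕ → ℕ[X]
  | [], L => if cst L then 1 else 0
  | (u, v, n) :: es, L =>
    if L.getD u.val 0 = L.getD v.val 0 then (1 + (n : ℕ[X]) * X) * WP es L
    else WP es L + (n : ℕ[X]) * X * WP es (mg L (L.getD u.val 0) (L.getD v.val 0))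

theorem WP_cons (u v : Fin 8) (n : ℕ) (es : List Ed) (L : List ℕ) :
    WP ((u, v, n) :: es) L = if L.getD u.val 0 = L.getD v.val 0 then
      (1 + (n : ℕ[X]) * X) * WP es L
    else WP es L + (n : ℕ[X]) * X * WP es (mg L (L.getD u.val 0) (L.getD v.val 0)) := rfl

theorem W_eq (B : ℕ) : ∀ (es : List Ed) (L : List ℕ), W B es L = (WP es L).eval B := by
  intro es
  induction es with
  | nil => intro L; unfold W WP; split_ifs <;> simp
  | cons t es ih =>
    intro L
    obtain ⟨u, v, n⟩ := t
    unfold W WP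
    split_ifs
    · rw [ih]; simp
    · rw [ih, ih]; simp

theorem WP_one_le : ∀ (es : List Ed) (L : List ℕ),
    (WP es L).eval 1 ≤ (es.map (fun t => 1 + t.2.2)).prod := by
  intro es
  induction es with
  | nil =>
    intro L
    unfold WP
    split_ifs <;> simp
  | cons t es ih =>
    intro L
    obtain ⟨u, v, n⟩ := t
    rw [WP_cons, List.map_cons, List.prod_cons]
    split_ifs
    · have h := Nat.mul_le_mul_left (1 + n) (ih L)
      simpa using h
    · have h1 := ih L
      have h2 := Nat.mul_le_mul_left n (ih (mg L (L.getD u.val 0) (L.getD v.val 0)))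
      have h3 : (WP es L + (n : ℕ[X]) * X *
          WP es (mg L (L.getD u.val 0) (L.getD v.val 0))).eval 1 = (WP es L).eval 1 +
          n * (WP es (mg L (L.getD u.val 0) (L.getD v.val 0))).eval 1 := by simp
      rw [h3, add_mul, one_mul]
      exact Nat.add_le_add h1 h2

/-- the polynomial with the coefficients in the list -/
noncomputable def polyOf : List ℕ → ℕ[X]
  | [] => 0
  | d :: D => C d + X * polyOf D

theorem polyOf_cons (d : ℕ) (D : List ℕ) : polyOf (d :: D) = C d + X * polyOf D := rfl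

theorem eq_zero_of_eval {p : ℕ[X]} {B : ℕ} (hB : 0 < B) (h : p.eval B = 0) : p = 0 := by
  rw [eval_eq_sum_range, Finset.sum_eq_zero_iff] at h
  have h1 := h p.natDegree (Finset.mem_range.2 (Nat.lt_succ_self _))
  have h2 : p.coeff p.natDegree = 0 := by
    rcases Nat.mul_eq_zero.1 h1 with h2 | h2
    · exact h2
    · exact absurd h2 (pow_pos hB _).ne'
  exact leadingCoeff_eq_zero.1 h2

theorem eq_polyOf {B : ℕ} (hB : 1 < B) : ∀ (D : List ℕ) (p : ℕ[X]), p.eval 1 < B →
    (∀ d ∈ D, d < B) → p.eval B = Nat.ofDigits B D → p = polyOf D := by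
  intro D
  induction D with
  | nil =>
    intro p _ _ h
    rw [Nat.ofDigits_nil] at h
    exact eq_zero_of_eval (by omega) h
  | cons d D ih =>
    intro p h1 hD h
    have hp : p = X * p.divX + C (p.coeff 0) := (X_mul_divX_add p).symm
    have e1 : p.eval 1 = p.divX.eval 1 + p.coeff 0 := by
      conv_lhs => rw [hp]
      simp
    have eB : p.eval B = B * p.divX.eval B + p.coeff 0 := by
      conv_lhs => rw [hp]
      simp
    rw [Nat.ofDigits_cons, eB] at h
    have hd : d < B := hD d (List.mem_cons_self)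
    have hc : p.coeff 0 < B := by omega
    have h2 : p.coeff 0 = d := by
      have h3 := congrArg (· % B) h
      simp only [Nat.mul_add_mod_self_left] at h3
      rw [Nat.add_mul_mod_self_left, Nat.mod_eq_of_lt hc, Nat.mod_eq_of_lt hd] at h3
      exact h3
    have h3 : p.divX.eval B = Nat.ofDigits B D := by
      have h4 : B * p.divX.eval B = B * Nat.ofDigits B D := by
        omega
      exact Nat.eq_of_mul_eq_mul_left (by omega) h4
    have h4 := ih p.divX (by omega) (fun x hx => hD x (List.mem_cons_of_mem _ hx)) h3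
    rw [polyOf_cons, ← h4, ← h2, add_comm]
    exact hp

/-- Horner evaluation -/
def hr (c : ℝ) : List ℕ → ℝ
  | [] => 0
  | d :: D => d + c * hr c D

/-- real evaluation -/
noncomputable def ev (c : ℝ) (p : ℕ[X]) : ℝ := p.eval₂ (Nat.castRingHom ℝ) c

theorem ev_polyOf (c : ℝ) (D : List ℕ) : ev c (polyOf D) = hr c D := by
  induction D with
  | nil => simp [ev, polyOf, hr]
  | cons d D ih =>
    unfold polyOf hr
    rw [← ih]
    simp [ev, eval₂_add, eval₂_mul]

/-- colourings which are constant on the classes of the labels -/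
def CL (L : List ℕ) : Set (Fin 8 → Prop) :=
  {c | ∀ x y : Fin 8, L.getD x.val 0 = L.getD y.val 0 → (c x ↔ c y)}

/-- every colouring in the set `Q` which is constant along `F` is constant -/
def Good (Q : Set (Fin 8 → Prop)) (F : Finset (Sym2 (Fin 8))) : Prop :=
  ∀ c ∈ Q, (∀ x y, s(x, y) ∈ F → (c x ↔ c y)) → ∀ x y, (c x ↔ c y)

theorem good_insert (Q : Set (Fin 8 → Prop)) (u v : Fin 8) (F : Finset (Sym2 (Fin 8))) :
    Good Q (insert s(u, v) F) ↔ Good (Q ∩ {c | c u ↔ c v}) F := by
  constructor
  · intro h c hc hF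
    refine h c hc.1 ?_
    intro x y hxy
    rw [Finset.mem_insert] at hxy
    rcases hxy with hxy | hxy
    · rw [Sym2.eq_iff] at hxy
      rcases hxy with ⟨rfl, rfl⟩ | ⟨rfl, rfl⟩
      · exact hc.2
      · exact hc.2.symm
    · exact hF x y hxy
  · intro h c hc hF
    refine h c ⟨hc, hF u v (Finset.mem_insert_self _ _)⟩ ?_
    intro x y hxy
    exact hF x y (Finset.mem_insert_of_mem hxy)

theorem CL_mg {L : List ℕ} (hL : L.length = 8) (u v : Fin 8) :
    CL (mg L (L.getD u.val 0) (L.getD v.val 0)) = CL L ∩ {c | c u ↔ c v} := by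
  have hl : ∀ x : Fin 8, x.val < L.length := fun x => by rw [hL]; exact x.2
  ext c
  constructor
  · intro h
    refine ⟨?_, ?_⟩
    · intro x y hxy
      apply h x y
      rw [getD_mg (hl x), getD_mg (hl y), hxy]
    · apply h u v
      rw [getD_mg (hl u), getD_mg (hl v), if_pos rfl]
      split_ifs <;> rfl
  · rintro ⟨h1, h2⟩ x y hxy
    have h2' : c u ↔ c v := h2
    rw [getD_mg (hl x), getD_mg (hl y)] at hxy
    split_ifs at hxy with hx hy hy
    · exact h1 x y (hx.trans hy.symm)
    · exact (h1 x v hx).trans (h2'.symm.trans (h1 u y hxy))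
    · exact (h1 x u hxy).trans (h2'.trans (h1 v y hy.symm))
    · exact h1 x y hxy

theorem CL_eq {L : List ℕ} {u v : Fin 8} (h : L.getD u.val 0 = L.getD v.val 0) :
    CL L ∩ {c | c u ↔ c v} = CL L := by
  ext c
  exact ⟨fun h1 => h1.1, fun h1 => ⟨h1, h1 u v h⟩⟩

theorem cst_iff {L : List ℕ} (hL : L.length = 8) : cst L = true ↔ Good (CL L) ∅ := by
  have hl : ∀ x : Fin 8, x.val < L.length := fun x => by rw [hL]; exact x.2
  have h0 : L.headD 0 = L.getD (0 : Fin 8).val 0 := by
    cases L with
    | nil => rfl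
    | cons a L => rfl
  unfold cst
  rw [List.all_eq_true, h0]
  constructor
  · intro h c hc _ x y
    have h1 : ∀ x : Fin 8, L.getD x.val 0 = L.getD (0 : Fin 8).val 0 := by
      intro x
      have h2 := h (L.getD x.val 0) (by
        rw [List.getD_eq_getElem _ _ (hl x)]; exact List.getElem_mem _)
      simpa using h2
    exact hc x y ((h1 x).trans (h1 y).symm)
  · intro h a ha
    obtain ⟨i, hi, rfl⟩ := List.getElem_of_mem ha
    have hi8 : i < 8 := by rw [← hL]; exact hi
    have h1 := h (fun x => L.getD x.val 0 = L.getD (0 : Fin 8).val 0)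
      (fun x y hxy => by
        change L.getD x.val 0 = _ ↔ L.getD y.val 0 = _
        rw [hxy])
      (fun x y hxy => absurd hxy (Finset.notMem_empty _)) 0 ⟨i, hi8⟩
    have h2 : L.getD i 0 = L.getD (0 : Fin 8).val 0 := h1.1 rfl
    rw [List.getD_eq_getElem _ _ hi] at h2
    simpa using h2

/-- the unordered pair of an edge -/
def sy (t : Ed) : Sym2 (Fin 8) := s(t.1, t.2.1)

theorem wt_mul (P : Prop) (a r : ℝ) : wt P (a * r) = a * wt P r := by
  by_cases h : P
  · rw [wt_pos h, wt_pos h]
  · rw [wt_neg h, wt_neg h, mul_zero]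

theorem wt_congr {P Q : Prop} (h : P ↔ Q) (r : ℝ) : wt P r = wt Q r := by rw [propext h]

theorem sum_eq (c : ℝ) (w : Sym2 (Fin 8) → ℝ) : ∀ (es : List Ed) (L : List ℕ), L.length = 8 →
    (es.map sy).Nodup → (∀ t ∈ es, w (sy t) = c * (t.2.2 : ℝ)) →
    ∑ F ∈ (es.map sy).toFinset.powerset, wt (Good (CL L) F) (∏ g ∈ F, w g) = ev c (WP es L) := by
  intro es
  induction es with
  | nil =>
    intro L hL _ _
    have h1 : (([] : List Ed).map sy).toFinset.powerset = {∅} := by simp
    rw [h1, Finset.sum_singleton, Finset.prod_empty]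
    unfold WP
    by_cases h : cst L = true
    · rw [if_pos h, wt_pos ((cst_iff hL).1 h)]; simp [ev]
    · rw [if_neg h, wt_neg (fun h2 => h ((cst_iff hL).2 h2))]; simp [ev]
  | cons t es ih =>
    intro L hL hnd hw
    obtain ⟨u, v, n⟩ := t
    rw [List.map_cons, List.nodup_cons] at hnd
    have hn : sy (u, v, n) ∉ (es.map sy).toFinset := by
      rw [List.mem_toFinset]; exact hnd.1
    have hw' : ∀ t ∈ es, w (sy t) = c * (t.2.2 : ℝ) := fun t ht => hw t (List.mem_cons_of_mem _ ht)
    have hwu : w (sy (u, v, n)) = c * (n : ℝ) := hw _ List.mem_cons_self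
    rw [List.map_cons, List.toFinset_cons, Finset.sum_powerset_insert hn, ih L hL hnd.2 hw']
    have h2 : ∀ F ∈ (es.map sy).toFinset.powerset,
        wt (Good (CL L) (insert (sy (u, v, n)) F)) (∏ g ∈ insert (sy (u, v, n)) F, w g) =
          (c * (n : ℝ)) * wt (Good (CL L ∩ {c | c u ↔ c v}) F) (∏ g ∈ F, w g) := by
      intro F hF
      have hnF : sy (u, v, n) ∉ F := fun h => hn ((Finset.mem_powerset.1 hF) h)
      rw [Finset.prod_insert hnF, hwu, ← wt_mul]
      exact wt_congr (good_insert _ u v F) _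
    rw [Finset.sum_congr rfl h2, ← Finset.mul_sum, WP_cons]
    by_cases h : L.getD u.val 0 = L.getD v.val 0
    · rw [if_pos h, CL_eq h, ih L hL hnd.2 hw']
      simp only [ev, eval₂_mul, eval₂_add, eval₂_one, eval₂_X, eval₂_natCast]
      ring
    · rw [if_neg h, ← CL_mg hL u v, ih _ (length_mg.trans hL) hnd.2 hw']
      simp only [ev, eval₂_mul, eval₂_add, eval₂_X, eval₂_natCast]
      ring

/-! ### The numbers -/

theorem one_lt_big : 1 < 2 ^ 96 := by norm_num

theorem prod_lt : (es8.map (fun t => 1 + t.2.2)).prod < 2 ^ 96 := by decide +kernel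

/-- coefficients of a state sum -/
def D00 : List ℕ :=
  [0, 0, 0, 0, 0, 0, 0, 36760602528000000, 7534109798400000000, 763984926720000000000,
    44901843456000000000000, 1446975795200000000000000, 20155637760000000000000000,
    124100608000000000000000000, 183910400000000000000000000, 81920000000000000000000000]

/-- labels -/
def L00 : List ℕ := [0, 1, 2, 3, 4, 5, 6, 7]

/-- coefficients of a state sum -/
def D10 : List ℕ :=
  [0, 0, 0, 0, 0, 0, 2334362947360000, 494168715168000000, 52188741734400000000,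
    3268880670720000000000, 119185440256000000000000, 2267148595200000000000000,
    24261877760000000000000000, 124100608000000000000000000, 183910400000000000000000000,
    81920000000000000000000000]

/-- labels -/
def L10 : List ℕ := [0, 1, 2, 3, 4, 5, 6, 6]

/-- coefficients of a state sum -/
def D01 : List ℕ :=
  [0, 0, 0, 0, 0, 0, 122331456000000, 46133888928000000, 7838214758400000000,
    768308766720000000000, 44928057856000000000000, 1446996275200000000000000,
    20155637760000000000000000, 124100608000000000000000000, 183910400000000000000000000,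
    81920000000000000000000000]

/-- labels -/
def L01 : List ℕ := [0, 0, 2, 3, 4, 5, 6, 7]

/-- coefficients of a state sum -/
def D11 : List ℕ :=
  [0, 0, 0, 0, 0, 7768262720000, 2982069571360000, 518629067168000000, 52665439334400000000,
    3274044190720000000000, 119210630656000000000000, 2267169075200000000000000,
    24261877760000000000000000, 124100608000000000000000000, 183910400000000000000000000,
    81920000000000000000000000]

/-- labels -/
def L11 : List ℕ := [0, 0, 2, 3, 4, 5, 6, 6]

theorem W00_big : W (2 ^ 96) es8 L00 = Nat.ofDigits (2 ^ 96) D00 := by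
  rw [← run8_eq (2 ^ 96) L00 rfl]
  decide +kernel

theorem lt00 : ∀ d ∈ D00, d < 2 ^ 96 := by decide +kernel

theorem P00 : WP es8 L00 = polyOf D00 :=
  eq_polyOf (B := 2 ^ 96) one_lt_big _ _ (lt_of_le_of_lt (WP_one_le _ _) prod_lt) lt00
    ((W_eq (2 ^ 96) es8 L00).symm.trans W00_big)

theorem ev00 (c : ℝ) : ev c (WP es8 L00) = hr c D00 := by
  rw [P00, ev_polyOf]

theorem W10_big : W (2 ^ 96) es8 L10 = Nat.ofDigits (2 ^ 96) D10 := by
  rw [← run8_eq (2 ^ 96) L10 rfl]
  decide +kernel

theorem lt10 : ∀ d ∈ D10, d < 2 ^ 96 := by decide +kernel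

theorem P10 : WP es8 L10 = polyOf D10 :=
  eq_polyOf (B := 2 ^ 96) one_lt_big _ _ (lt_of_le_of_lt (WP_one_le _ _) prod_lt) lt10
    ((W_eq (2 ^ 96) es8 L10).symm.trans W10_big)

theorem ev10 (c : ℝ) : ev c (WP es8 L10) = hr c D10 := by
  rw [P10, ev_polyOf]

theorem W01_big : W (2 ^ 96) es8 L01 = Nat.ofDigits (2 ^ 96) D01 := by
  rw [← run8_eq (2 ^ 96) L01 rfl]
  decide +kernel

theorem lt01 : ∀ d ∈ D01, d < 2 ^ 96 := by decide +kernel

theorem P01 : WP es8 L01 = polyOf D01 :=
  eq_polyOf (B := 2 ^ 96) one_lt_big _ _ (lt_of_le_of_lt (WP_one_le _ _) prod_lt) lt01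
    ((W_eq (2 ^ 96) es8 L01).symm.trans W01_big)

theorem ev01 (c : ℝ) : ev c (WP es8 L01) = hr c D01 := by
  rw [P01, ev_polyOf]

theorem W11_big : W (2 ^ 96) es8 L11 = Nat.ofDigits (2 ^ 96) D11 := by
  rw [← run8_eq (2 ^ 96) L11 rfl]
  decide +kernel

theorem lt11 : ∀ d ∈ D11, d < 2 ^ 96 := by decide +kernel

theorem P11 : WP es8 L11 = polyOf D11 :=
  eq_polyOf (B := 2 ^ 96) one_lt_big _ _ (lt_of_le_of_lt (WP_one_le _ _) prod_lt) lt11
    ((W_eq (2 ^ 96) es8 L11).symm.trans W11_big)

theorem ev11 (c : ℝ) : ev c (WP es8 L11) = hr c D11 := by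
  rw [P11, ev_polyOf]

end Pool.Agent.Helper40NC
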