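import Mathlib
import Pool.Agent.Helper40_NC.Num

/-!
# State sums for connected spanning subgraphs: the weighted counterexample, and all weights
-/

namespace Pool.Agent.Helper40NC

open Finset Polynomial Pool.Agent.Helper43NC

/-- the numerical inequality -/
theorem num_ineq (c : ℝ) (hc : 0 < c) (hc1 : c ≤ 1 / 4000) :
    hr c D10 * hr c D01 < hr c D00 * hr c D11 := by
  have key : hr c D00 * hr c D11 - hr c D10 * hr c D01 =
      c ^ 13 * (3999131610052608000000000000 - (12295286284337971200000000000000 * c +
        3981441390943272960000000000000000 * c ^ 2 + 496682815108153344000000000000000000 * c ^ 3 +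
        31120278621804953600000000000000000000 * c ^ 4 +
        1023325536072499200000000000000000000000 * c ^ 5 +
        18301130091659264000000000000000000000000 * c ^ 6 +
        176319868121907200000000000000000000000000 * c ^ 7 +
        1097249408942080000000000000000000000000000 * c ^ 8 +
        7896817467392000000000000000000000000000000 * c ^ 9 +
        42610144051200000000000000000000000000000000 * c ^ 10 +
        119537664000000000000000000000000000000000000 * c ^ 11 +
        83886080000000000000000000000000000000000000 * c ^ 12)) := by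
    simp only [hr, D00, D10, D01, D11]
    push_cast
    ring
  have hb : 12295286284337971200000000000000 * c +
        3981441390943272960000000000000000 * c ^ 2 + 496682815108153344000000000000000000 * c ^ 3 +
        31120278621804953600000000000000000000 * c ^ 4 +
        1023325536072499200000000000000000000000 * c ^ 5 +
        18301130091659264000000000000000000000000 * c ^ 6 +
        176319868121907200000000000000000000000000 * c ^ 7 +
        1097249408942080000000000000000000000000000 * c ^ 8 +
        7896817467392000000000000000000000000000000 * c ^ 9 +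
        42610144051200000000000000000000000000000000 * c ^ 10 +
        119537664000000000000000000000000000000000000 * c ^ 11 +
        83886080000000000000000000000000000000000000 * c ^ 12 ≤
      12295286284337971200000000000000 * (1 / 4000) +
        3981441390943272960000000000000000 * (1 / 4000) ^ 2 +
        496682815108153344000000000000000000 * (1 / 4000) ^ 3 +
        31120278621804953600000000000000000000 * (1 / 4000) ^ 4 +
        1023325536072499200000000000000000000000 * (1 / 4000) ^ 5 +
        18301130091659264000000000000000000000000 * (1 / 4000) ^ 6 +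
        176319868121907200000000000000000000000000 * (1 / 4000) ^ 7 +
        1097249408942080000000000000000000000000000 * (1 / 4000) ^ 8 +
        7896817467392000000000000000000000000000000 * (1 / 4000) ^ 9 +
        42610144051200000000000000000000000000000000 * (1 / 4000) ^ 10 +
        119537664000000000000000000000000000000000000 * (1 / 4000) ^ 11 +
        83886080000000000000000000000000000000000000 * (1 / 4000) ^ 12 := by
    gcongr
  have hn : (12295286284337971200000000000000 * (1 / 4000) +
        3981441390943272960000000000000000 * (1 / 4000) ^ 2 +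
        496682815108153344000000000000000000 * (1 / 4000) ^ 3 +
        31120278621804953600000000000000000000 * (1 / 4000) ^ 4 +
        1023325536072499200000000000000000000000 * (1 / 4000) ^ 5 +
        18301130091659264000000000000000000000000 * (1 / 4000) ^ 6 +
        176319868121907200000000000000000000000000 * (1 / 4000) ^ 7 +
        1097249408942080000000000000000000000000000 * (1 / 4000) ^ 8 +
        7896817467392000000000000000000000000000000 * (1 / 4000) ^ 9 +
        42610144051200000000000000000000000000000000 * (1 / 4000) ^ 10 +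
        119537664000000000000000000000000000000000000 * (1 / 4000) ^ 11 +
        83886080000000000000000000000000000000000000 * (1 / 4000) ^ 12 : ℝ) <
      3999131610052608000000000000 := by norm_num
  have hpos : 0 < hr c D00 * hr c D11 - hr c D10 * hr c D01 := by
    rw [key]
    apply mul_pos (pow_pos hc 13)
    linarith
  linarith

/-- the edge `{6,7}` -/
def ea : Sym2 (Fin 8) := s(6, 7)

/-- the edge `{0,1}` -/
def fa : Sym2 (Fin 8) := s(0, 1)

/-- the other edges -/
def Na : Finset (Sym2 (Fin 8)) := (es8.map sy).toFinset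

theorem ea_notMem : ea ∉ Na := by decide +kernel
theorem fa_notMem : fa ∉ Na := by decide +kernel
theorem ea_ne_fa : ea ≠ fa := by decide +kernel

theorem nodup8 : (es8.map sy).Nodup := by decide +kernel

theorem conn_good (F : Finset (Sym2 (Fin 8))) : Conn F ↔ Good (CL L00) F := by
  rw [conn_iff]
  have h0 : ∀ x y : Fin 8, L00.getD x.val 0 = L00.getD y.val 0 → x = y := by decide +kernel
  constructor
  · intro h c _ hF x y
    exact h c hF x y
  · intro h c hF x y
    refine h c ?_ hF x y
    intro x y hxy
    rw [h0 x y hxy]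

theorem CL10 : CL L00 ∩ {c | c (6 : Fin 8) ↔ c (7 : Fin 8)} = CL L10 := by
  rw [← CL_mg (L := L00) rfl 6 7]
  rfl

theorem CL01 : CL L00 ∩ {c | c (0 : Fin 8) ↔ c (1 : Fin 8)} = CL L01 := by
  rw [← CL_mg (L := L00) rfl 0 1]
  rfl

theorem CL11 : (CL L00 ∩ {c | c (6 : Fin 8) ↔ c (7 : Fin 8)}) ∩ {c | c (0 : Fin 8) ↔ c (1 : Fin 8)}
    = CL L11 := by
  rw [CL10, ← CL_mg (L := L10) rfl 0 1]
  rfl

/-- the state sums of the set `Na` -/
noncomputable def S (w : Sym2 (Fin 8) → ℝ) (L : List ℕ) : ℝ :=
  ∑ F ∈ Na.powerset, wt (Good (CL L) F) (∏ g ∈ F, w g)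

theorem kw_expand (w : Sym2 (Fin 8) → ℝ) (T : Finset (Sym2 (Fin 8))) :
    KW (insert ea (insert fa Na)) w T =
      ∑ F ∈ Na.powerset, (wt (T ⊆ F) (wt (Good (CL L00) F) (∏ g ∈ F, w g)) +
        w fa * wt (T ⊆ insert fa F) (wt (Good (CL L01) F) (∏ g ∈ F, w g)) +
        w ea * wt (T ⊆ insert ea F) (wt (Good (CL L10) F) (∏ g ∈ F, w g)) +
        w ea * w fa * wt (T ⊆ insert ea (insert fa F)) (wt (Good (CL L11) F) (∏ g ∈ F, w g))) := by
  have hef : ea ∉ insert fa Na := by
    rw [Finset.mem_insert, not_or]
    exact ⟨ea_ne_fa, ea_notMem⟩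
  have hwt2 : ∀ (P Q : Prop) (r : ℝ), wt (P ∧ Q) r = wt P (wt Q r) := by
    intro P Q r
    by_cases hP : P
    · rw [wt_pos hP]; exact wt_congr ⟨fun h => h.2, fun h => ⟨hP, h⟩⟩ r
    · rw [wt_neg hP, wt_neg (fun h => hP h.1)]
  unfold KW
  rw [Finset.sum_powerset_insert hef, Finset.sum_powerset_insert fa_notMem,
    Finset.sum_powerset_insert fa_notMem, ← Finset.sum_add_distrib, ← Finset.sum_add_distrib,
    ← Finset.sum_add_distrib]
  apply Finset.sum_congr rfl
  intro F hF
  rw [Finset.mem_powerset] at hF
  have hfF : fa ∉ F := fun h => fa_notMem (hF h)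
  have heF : ea ∉ F := fun h => ea_notMem (hF h)
  have heF2 : ea ∉ insert fa F := by
    rw [Finset.mem_insert, not_or]
    exact ⟨ea_ne_fa, heF⟩
  rw [hwt2, hwt2, hwt2, hwt2, Finset.prod_insert hfF, Finset.prod_insert heF,
    Finset.prod_insert heF2, Finset.prod_insert hfF, wt_congr (conn_good F),
    wt_congr ((conn_good (insert fa F)).trans (by
      change Good _ (insert s(0, 1) F) ↔ _
      rw [good_insert, CL01])),
    wt_congr ((conn_good (insert ea F)).trans (by
      change Good _ (insert s(6, 7) F) ↔ _
      rw [good_insert, CL10])),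
    wt_congr ((conn_good (insert ea (insert fa F))).trans (by
      change Good _ (insert s(6, 7) (insert s(0, 1) F)) ↔ _
      rw [good_insert, good_insert, CL11]))]
  simp only [wt_mul]
  ring

theorem kw_all (w : Sym2 (Fin 8) → ℝ) :
    KW (insert ea (insert fa Na)) w ∅ =
      S w L00 + w fa * S w L01 + w ea * S w L10 + w ea * w fa * S w L11 := by
  rw [kw_expand]
  unfold S
  rw [Finset.mul_sum, Finset.mul_sum, Finset.mul_sum, ← Finset.sum_add_distrib,
    ← Finset.sum_add_distrib, ← Finset.sum_add_distrib]
  apply Finset.sum_congr rfl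
  intro F _
  rw [wt_pos (Finset.empty_subset _), wt_pos (Finset.empty_subset _),
    wt_pos (Finset.empty_subset _), wt_pos (Finset.empty_subset _)]

theorem kw_e (w : Sym2 (Fin 8) → ℝ) :
    KW (insert ea (insert fa Na)) w {ea} = w ea * S w L10 + w ea * w fa * S w L11 := by
  rw [kw_expand]
  unfold S
  rw [Finset.mul_sum, Finset.mul_sum, ← Finset.sum_add_distrib]
  apply Finset.sum_congr rfl
  intro F hF
  rw [Finset.mem_powerset] at hF
  have heF : ea ∉ F := fun h => ea_notMem (hF h)
  have h1 : ¬ (({ea} : Finset (Sym2 (Fin 8))) ⊆ F) := by simpa using heF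
  have h2 : ¬ (({ea} : Finset (Sym2 (Fin 8))) ⊆ insert fa F) := by
    rw [Finset.singleton_subset_iff, Finset.mem_insert, not_or]
    exact ⟨ea_ne_fa, heF⟩
  have h3 : ({ea} : Finset (Sym2 (Fin 8))) ⊆ insert ea F := by simp
  have h4 : ({ea} : Finset (Sym2 (Fin 8))) ⊆ insert ea (insert fa F) := by simp
  rw [wt_neg h1, wt_neg h2, wt_pos h3, wt_pos h4]
  ring

theorem kw_f (w : Sym2 (Fin 8) → ℝ) :
    KW (insert ea (insert fa Na)) w {fa} = w fa * S w L01 + w ea * w fa * S w L11 := by
  rw [kw_expand]
  unfold S
  rw [Finset.mul_sum, Finset.mul_sum, ← Finset.sum_add_distrib]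
  apply Finset.sum_congr rfl
  intro F hF
  rw [Finset.mem_powerset] at hF
  have hfF : fa ∉ F := fun h => fa_notMem (hF h)
  have h1 : ¬ (({fa} : Finset (Sym2 (Fin 8))) ⊆ F) := by simpa using hfF
  have h2 : ¬ (({fa} : Finset (Sym2 (Fin 8))) ⊆ insert ea F) := by
    rw [Finset.singleton_subset_iff, Finset.mem_insert, not_or]
    exact ⟨ea_ne_fa.symm, hfF⟩
  have h3 : ({fa} : Finset (Sym2 (Fin 8))) ⊆ insert fa F := by simp
  have h4 : ({fa} : Finset (Sym2 (Fin 8))) ⊆ insert ea (insert fa F) := by simp
  rw [wt_neg h1, wt_neg h2, wt_pos h3, wt_pos h4]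
  ring

theorem kw_ef (w : Sym2 (Fin 8) → ℝ) :
    KW (insert ea (insert fa Na)) w {ea, fa} = w ea * w fa * S w L11 := by
  rw [kw_expand]
  unfold S
  rw [Finset.mul_sum]
  apply Finset.sum_congr rfl
  intro F hF
  rw [Finset.mem_powerset] at hF
  have hfF : fa ∉ F := fun h => fa_notMem (hF h)
  have heF : ea ∉ F := fun h => ea_notMem (hF h)
  have h1 : ¬ (({ea, fa} : Finset (Sym2 (Fin 8))) ⊆ F) := fun h => heF (h (by simp))
  have h2 : ¬ (({ea, fa} : Finset (Sym2 (Fin 8))) ⊆ insert fa F) := fun h => by
    have := h (show ea ∈ _ by simp)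
    rw [Finset.mem_insert] at this
    exact this.elim ea_ne_fa heF
  have h3 : ¬ (({ea, fa} : Finset (Sym2 (Fin 8))) ⊆ insert ea F) := fun h => by
    have := h (show fa ∈ _ by simp)
    rw [Finset.mem_insert] at this
    exact this.elim ea_ne_fa.symm hfF
  have h4 : ({ea, fa} : Finset (Sym2 (Fin 8))) ⊆ insert ea (insert fa F) := by
    intro x hx
    simp only [Finset.mem_insert, Finset.mem_singleton] at hx ⊢
    rcases hx with rfl | rfl
    · exact Or.inl rfl
    · exact Or.inr (Or.inl rfl)
  rw [wt_neg h1, wt_neg h2, wt_neg h3, wt_pos h4]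
  ring

/-- the weighted counterexample -/
theorem viol8 (c : ℝ) (hc : 0 < c) (hc1 : c ≤ 1 / 4000) (w : Sym2 (Fin 8) → ℝ) (he : 0 < w ea)
    (hf : 0 < w fa) (hw : ∀ t ∈ es8, w (sy t) = c * (t.2.2 : ℝ)) :
    Viol (insert ea (insert fa Na)) w ea fa := by
  have h := num_ineq c hc hc1
  have s00 : S w L00 = hr c D00 := by
    rw [← ev00]; exact sum_eq c w es8 L00 rfl nodup8 hw
  have s10 : S w L10 = hr c D10 := by
    rw [← ev10]; exact sum_eq c w es8 L10 rfl nodup8 hw
  have s01 : S w L01 = hr c D01 := by
    rw [← ev01]; exact sum_eq c w es8 L01 rfl nodup8 hw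
  have s11 : S w L11 = hr c D11 := by
    rw [← ev11]; exact sum_eq c w es8 L11 rfl nodup8 hw
  unfold Viol
  rw [kw_all, kw_e, kw_f, kw_ef, s00, s10, s01, s11]
  have h2 := mul_lt_mul_of_pos_left h (mul_pos he hf)
  nlinarith [h2]

end Pool.Agent.Helper40NC
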