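import Mathlib
import Pool.Agent.Helper40_NC.Weighted

/-!
# The counterexample with one weight `α`, for every `α > 0`
-/

namespace Pool.Agent.Helper40NC

open Finset Pool.Agent.Helper43NC

/-- the lengths of the paths which replace the edges -/
def kk (m : ℕ) (g : Sym2 (Fin 8)) : ℕ :=
  match es8.find? (fun t => decide (sy t = g)) with
  | some t => 200 / t.2.2 * m
  | none => 1

theorem find_es8 : ∀ t ∈ es8, es8.find? (fun t' => decide (sy t' = sy t)) = some t := by
  decide +kernel

theorem div_es8 : ∀ t ∈ es8, 200 / t.2.2 * t.2.2 = 200 := by decide +kernel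

theorem pos_es8 : ∀ t ∈ es8, 1 ≤ 200 / t.2.2 := by decide +kernel

theorem kk_sy (m : ℕ) {t : Ed} (ht : t ∈ es8) : kk m (sy t) = 200 / t.2.2 * m := by
  unfold kk
  rw [find_es8 t ht]

theorem kk_pos {m : ℕ} (hm : 1 ≤ m) (g : Sym2 (Fin 8)) : 1 ≤ kk m g := by
  unfold kk
  split
  · rename_i t h
    exact Nat.mul_pos (pos_es8 t (List.mem_of_find?_eq_some h)) hm
  · exact le_rfl

theorem kk_ea (m : ℕ) : kk m ea = 1 := by
  have h : es8.find? (fun t' => decide (sy t' = ea)) = none := by decide +kernel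
  unfold kk
  rw [h]

theorem kk_fa (m : ℕ) : kk m fa = 1 := by
  have h : es8.find? (fun t' => decide (sy t' = fa)) = none := by decide +kernel
  unfold kk
  rw [h]

theorem no_diag : ∀ g ∈ insert ea (insert fa Na), ¬ g.IsDiag := by decide +kernel

/-- for every `α > 0` there is a counterexample with the constant weight `α` -/
theorem uni (α : ℝ) (hα : 0 < α) :
    ∃ (V' : Type) (_ : Fintype V') (_ : DecidableEq V') (_ : Nonempty V') (E' : Finset (Sym2 V'))
      (e' f' : Sym2 V'), (∀ g ∈ E', ¬ g.IsDiag) ∧ e' ∈ E' ∧ f' ∈ E' ∧ e' ≠ f' ∧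
      Viol E' (fun _ => α) e' f' := by
  obtain ⟨m, hm⟩ := exists_nat_ge (20 * α)
  have hm0 : (0 : ℝ) < m := by linarith
  have hm1 : 1 ≤ m := by
    have : 0 < m := by exact_mod_cast hm0
    omega
  refine sub α hα _ (Fin 8) (insert ea (insert fa Na)) (kk m) ea fa (kk_pos hm1) no_diag
    (Finset.mem_insert_self _ _) (Finset.mem_insert_of_mem (Finset.mem_insert_self _ _)) ea_ne_fa
    (kk_ea m) (kk_fa m) rfl ?_
  refine viol8 (α / (200 * m)) (by positivity) ?_ _ ?_ ?_ ?_
  · rw [div_le_div_iff₀ (by positivity) (by norm_num)]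
    linarith
  · simp only [kk_ea]; simpa using hα
  · simp only [kk_fa]; simpa using hα
  · intro t ht
    have h1 : (((200 / t.2.2 : ℕ)) : ℝ) * (t.2.2 : ℝ) = 200 := by exact_mod_cast div_es8 t ht
    have h2 : (((200 / t.2.2 : ℕ)) : ℝ) ≠ 0 := by
      have := pos_es8 t ht
      have h3 : 0 < 200 / t.2.2 := this
      exact_mod_cast h3.ne'
    simp only [kk_sy m ht]
    rw [Nat.cast_mul, div_mul_eq_mul_div, div_eq_div_iff (by positivity) (by positivity)]
    rw [← h1]
    ring

end Pool.Agent.Helper40NC
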